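import Mathlib
import Pool.Agent.TH792.VeeLocal

/-! Which irreducible labelled ∨-systems are locally determined by their matroid and ν-function. -/

namespace Pool.Agent.Results.MP_44d68a_mp.LocalDetermination

open Module Filter Topology

noncomputable section

open scoped Classical

variable {V : Type*} [AddCommGroup V] [Module ℝ V] {E : Type*} [Fintype E]

/-- The canonical form `G_a(u, v) = ∑_e a_e(u) a_e(v)` on `V`. -/
def form (a : E → Dual ℝ V) (u v : V) : ℝ := ∑ e, a e u * a e v

/-- `γ^∨`: the vector `v` with `G_a(v, w) = γ(w)` for all `w`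
(it exists and is unique when the `a e` span the dual of the finite-dimensional space `V`). -/
def vee (a : E → Dual ℝ V) (γ : Dual ℝ V) : V :=
  Classical.epsilon (fun v => ∀ w, form a v w = γ w)

/-- `l` is a value of `ν` for the set `F` of labels at the label `e`:
`∑_{f ∈ F} a_f(a_e^∨) a_f^∨ = l a_e^∨`. -/
def IsNu (a : E → Dual ℝ V) (F : Set E) (e : E) (l : ℝ) : Prop :=
  ∑ f with f ∈ F, a f (vee a (a e)) • vee a (a f) = l • vee a (a e)

/-- Labelled ∨-systems: injective families of nonzero covectors that span the dual and satisfy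
the ∨-conditions for all two-dimensional subspaces `P` of the dual. -/
structure IsVee (a : E → Dual ℝ V) : Prop where
  injective : Function.Injective a
  ne_zero : ∀ e, a e ≠ 0
  span_eq_top : Submodule.span ℝ (Set.range a) = ⊤
  vee_cond : ∀ P : Submodule ℝ (Dual ℝ V), finrank ℝ P = 2 → ∀ e, a e ∈ P →
    ∃ l : ℝ, IsNu a {f | a f ∈ P} e l

/-- Irreducibility: the system is not a disjoint union of two nonempty parts whose spans meet
only in `0`. -/
def IsIrreducible (a : E → Dual ℝ V) : Prop :=
  ∀ S : Set E, S.Nonempty → Sᶜ.Nonempty →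
    ¬ Disjoint (Submodule.span ℝ (a '' S)) (Submodule.span ℝ (a '' Sᶜ))

/-- `a` and `b` induce the same matroid on the set of labels. -/
def SameMatroid (a b : E → Dual ℝ V) : Prop :=
  ∀ s : Set E, LinearIndepOn ℝ a s ↔ LinearIndepOn ℝ b s

/-- `F` is a flat of rank two of the matroid of `a`. -/
def IsTwoFlat (a : E → Dual ℝ V) (F : Set E) : Prop :=
  finrank ℝ (Submodule.span ℝ (a '' F)) = 2 ∧ ∀ e, a e ∈ Submodule.span ℝ (a '' F) → e ∈ F

/-- `a` and `b` have the same `ν`-values on all 2-flats with at least three elements. -/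
def SameNu (a b : E → Dual ℝ V) : Prop :=
  ∀ F : Set E, IsTwoFlat a F → 3 ≤ F.ncard → ∀ e ∈ F, ∀ l : ℝ, IsNu a F e l ↔ IsNu b F e l

/-- `a` is locally determined by its matroid and `ν`-function: every labelled ∨-system `b` close
to `a` (in the coordinates of a basis) with the matroid and the `ν`-values of `a` is `g ∘ a` for
some `g` in `GL(V^*)`. -/
def LocallyDetermined [FiniteDimensional ℝ V] (a : E → Dual ℝ V) : Prop :=
  ∃ ε > 0, ∀ b : E → Dual ℝ V, IsVee b → SameMatroid a b → SameNu a b →
    (∀ e i, |b e (finBasis ℝ V i) - a e (finBasis ℝ V i)| < ε) →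
    ∃ g : Dual ℝ V ≃ₗ[ℝ] Dual ℝ V, ∀ e, b e = g (a e)

/-! ### Comparison with the unlabelled definitions -/

section compare

variable {a b : E → Dual ℝ V}

lemma form_eq (ha : Function.Injective a) (u v : V) :
    Pool.Agent.TH792.Vee.form (Finset.univ.image a) u v = form a u v := by
  rw [Pool.Agent.TH792.Vee.form, form, Finset.sum_image (fun x _ y _ h => ha h)]

lemma vee_eq (ha : Function.Injective a) (γ : Dual ℝ V) :
    Pool.Agent.TH792.Vee.vee (Finset.univ.image a) γ = vee a γ := by
  rw [Pool.Agent.TH792.Vee.vee, vee]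
  simp only [form_eq ha]

lemma inter_eq (P : Submodule ℝ (Dual ℝ V)) :
    Pool.Agent.TH792.Vee.inter (Finset.univ.image a) P =
      (Finset.univ.filter (fun f => a f ∈ P)).image a := by
  ext β
  simp only [Pool.Agent.TH792.Vee.inter, Finset.mem_filter, Finset.mem_image, Finset.mem_univ,
    true_and]
  constructor
  · rintro ⟨⟨e, rfl⟩, h⟩
    exact ⟨e, h, rfl⟩
  · rintro ⟨e, h, rfl⟩
    exact ⟨⟨e, rfl⟩, h⟩

lemma sum_inter_eq (ha : Function.Injective a) (P : Submodule ℝ (Dual ℝ V)) (γ : Dual ℝ V) :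
    ∑ β ∈ Pool.Agent.TH792.Vee.inter (Finset.univ.image a) P,
      β (Pool.Agent.TH792.Vee.vee (Finset.univ.image a) γ) •
        Pool.Agent.TH792.Vee.vee (Finset.univ.image a) β =
    ∑ f with f ∈ {f | a f ∈ P}, a f (vee a γ) • vee a (a f) := by
  rw [inter_eq, Finset.sum_image (fun x _ y _ h => ha h)]
  simp only [vee_eq ha]
  rfl

end compare

/-- Existence and linearity of `∨`. -/
lemma exists_vee [FiniteDimensional ℝ V] (a : E → Dual ℝ V)
    (hs : Submodule.span ℝ (Set.range a) = ⊤) :
    ∃ T : Dual ℝ V ≃ₗ[ℝ] V, (∀ γ, vee a γ = T γ) ∧ ∀ γ w, form a (T γ) w = γ w := by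
  let Phi : V →ₗ[ℝ] Dual ℝ V := ∑ e, LinearMap.smulRight (a e) (a e)
  have hPhi : ∀ v w, Phi v w = form a v w := by
    intro v w
    simp only [Phi, LinearMap.sum_apply, LinearMap.smulRight_apply, LinearMap.smul_apply,
      smul_eq_mul, form]
  have hinj : Function.Injective Phi := by
    rw [← LinearMap.ker_eq_bot, LinearMap.ker_eq_bot']
    intro v hv
    have h1 : form a v v = 0 := by rw [← hPhi, hv]; rfl
    have h2 : ∀ e, a e v = 0 := by
      intro e
      have := (Finset.sum_eq_zero_iff_of_nonneg (fun β _ => mul_self_nonneg (a β v))).1 h1 e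
        (Finset.mem_univ e)
      exact mul_self_eq_zero.1 this
    have h3 : ∀ γ : Dual ℝ V, γ v = 0 := by
      intro γ
      have hγ : γ ∈ Submodule.span ℝ (Set.range a) := by rw [hs]; trivial
      have : Submodule.span ℝ (Set.range a) ≤ LinearMap.ker (Dual.eval ℝ V v) := by
        rw [Submodule.span_le]
        rintro _ ⟨e, rfl⟩
        exact h2 e
      exact this hγ
    exact (forall_dual_apply_eq_zero_iff ℝ v).1 h3
  have hsurj : Function.Surjective Phi :=
    (LinearMap.injective_iff_surjective_of_finrank_eq_finrank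
      (Subspace.dual_finrank_eq (K := ℝ) (V := V)).symm).1 hinj
  let T := (LinearEquiv.ofBijective Phi ⟨hinj, hsurj⟩).symm
  have hT : ∀ γ w, form a (T γ) w = γ w := by
    intro γ w
    rw [← hPhi]
    have : Phi (T γ) = γ := (LinearEquiv.ofBijective Phi ⟨hinj, hsurj⟩).apply_symm_apply γ
    rw [this]
  refine ⟨T, ?_, hT⟩
  intro γ
  have h1 : ∀ w, form a (vee a γ) w = γ w :=
    Classical.epsilon_spec (p := fun v => ∀ w, form a v w = γ w) ⟨T γ, hT γ⟩
  apply hinj
  ext w
  rw [hPhi, hPhi, h1, hT]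

/-! ### The positive part -/

section positive

variable {a b : E → Dual ℝ V}

omit [Fintype E] in
lemma ind_pair (ha0 : ∀ e, a e ≠ 0) (hnc : ∀ e f, e ≠ f → ∀ c : ℝ, a f ≠ c • a e)
    {e f : E} (hef : e ≠ f) : Pool.Agent.TH792.VeeB.Ind (a e) (a f) := by
  intro s t hst
  have ht : t = 0 := by
    by_contra ht
    apply hnc e f hef (-(s / t))
    have : t • a f = -(s • a e) := by
      rw [eq_neg_iff_add_eq_zero, add_comm]; exact hst
    calc a f = t⁻¹ • (t • a f) := by rw [smul_smul, inv_mul_cancel₀ ht, one_smul]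
      _ = -(s / t) • a e := by rw [this, smul_neg, smul_smul, ← neg_smul]; congr 1; ring
  subst ht
  rw [zero_smul, add_zero] at hst
  exact ⟨(smul_eq_zero.1 hst).resolve_right (ha0 e), rfl⟩

lemma veeSystem_of (ha : IsVee a) (hnc : ∀ e f, e ≠ f → ∀ c : ℝ, a f ≠ c • a e) :
    Pool.Agent.TH792.Vee.IsVeeSystem (Finset.univ.image a) where
  ne_zero := by
    intro α hα
    obtain ⟨e, _, rfl⟩ := Finset.mem_image.1 hα
    exact ha.ne_zero e
  not_collinear := by
    intro α hα β hβ hne c
    obtain ⟨e, _, rfl⟩ := Finset.mem_image.1 hα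
    obtain ⟨f, _, rfl⟩ := Finset.mem_image.1 hβ
    exact hnc e f (fun h => hne (by rw [h])) c
  span_eq_top := by
    rw [Finset.coe_image, Finset.coe_univ, Set.image_univ]
    exact ha.span_eq_top
  vee_cond := by
    intro P hP α hα
    rw [inter_eq] at hα
    obtain ⟨e, he, rfl⟩ := Finset.mem_image.1 hα
    obtain ⟨l, hl⟩ := ha.vee_cond P hP e (Finset.mem_filter.1 he).2
    refine ⟨l, ?_⟩
    rw [sum_inter_eq ha.injective, vee_eq ha.injective]
    exact hl

lemma irreducible_of (hirr : IsIrreducible a) :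
    Pool.Agent.TH792.Vee.IsIrreducible (Finset.univ.image a) := by
  intro A₁ A₂ hU hD h1 h2 hc
  have hU' : A₁ ∪ A₂ = Set.range a := by
    rw [hU, Finset.coe_image, Finset.coe_univ, Set.image_univ]
  have e1 : a '' (a ⁻¹' A₁) = A₁ :=
    Set.image_preimage_eq_of_subset (hU' ▸ Set.subset_union_left)
  have e3 : (a ⁻¹' A₁)ᶜ = a ⁻¹' A₂ := by
    ext x
    simp only [Set.mem_compl_iff, Set.mem_preimage]
    constructor
    · intro h
      have : a x ∈ A₁ ∪ A₂ := by rw [hU']; exact ⟨x, rfl⟩
      exact this.resolve_left h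
    · intro h h'
      exact Set.disjoint_left.1 hD h' h
  have e2 : a '' (a ⁻¹' A₁)ᶜ = A₂ := by
    rw [e3]
    exact Set.image_preimage_eq_of_subset (hU' ▸ Set.subset_union_right)
  refine hirr (a ⁻¹' A₁) ?_ ?_ ?_
  · rw [← Set.image_nonempty (f := a), e1]; exact h1
  · rw [← Set.image_nonempty (f := a), e2]; exact h2
  · rw [e1, e2]; exact hc.disjoint

omit [Fintype E] in
lemma irreducible_of_matroid (hirr : IsIrreducible a) (hm : SameMatroid a b) :
    IsIrreducible b := by
  intro S hS hS' hd
  refine hirr S hS hS' ?_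
  obtain ⟨I, hI1, -, hI2, hI3⟩ := exists_linearIndepOn_extension (K := ℝ) (v := a)
    (s := ∅) (t := S) (linearIndepOn_empty _ _) (Set.empty_subset _)
  obtain ⟨J, hJ1, -, hJ2, hJ3⟩ := exists_linearIndepOn_extension (K := ℝ) (v := a)
    (s := ∅) (t := Sᶜ) (linearIndepOn_empty _ _) (Set.empty_subset _)
  have hbI := (hm I).1 hI3
  have hbJ := (hm J).1 hJ3
  have hdis : Disjoint (Submodule.span ℝ (b '' I)) (Submodule.span ℝ (b '' J)) :=
    hd.mono (Submodule.span_mono (Set.image_mono hI1)) (Submodule.span_mono (Set.image_mono hJ1))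
  have hbIJ : LinearIndepOn ℝ b (I ∪ J) := hbI.union hbJ hdis
  have haIJ := (hm _).2 hbIJ
  have hdIJ : Disjoint I J := (Set.disjoint_compl_right_iff_subset.2 le_rfl).mono hI1 hJ1
  have h5 : Disjoint (Submodule.span ℝ (a '' I)) (Submodule.span ℝ (a '' J)) := by
    have := (linearIndepOn_union_iff (R := ℝ) (v := a) hdIJ).1 haIJ
    exact this.2.2
  refine h5.mono ?_ ?_
  · rw [Submodule.span_le]; exact hI2
  · rw [Submodule.span_le]; exact hJ2

omit [Fintype E] in
lemma ncol_of_matroid (hm : SameMatroid a b) (ha : ∀ e f, e ≠ f → ∀ c : ℝ, a f ≠ c • a e)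
    (ha0 : ∀ e, a e ≠ 0) : ∀ e f, e ≠ f → ∀ c : ℝ, b f ≠ c • b e := by
  intro e f hef c hc
  have h1 : LinearIndepOn ℝ a {e, f} := (LinearIndepOn.pair_iff a hef).2 (ind_pair ha0 ha hef)
  have h2 := (LinearIndepOn.pair_iff b hef).1 ((hm _).1 h1) c (-1) (by rw [hc]; simp)
  norm_num at h2

lemma nuset_iff [FiniteDimensional ℝ V] (ha : IsVee a) (F : Set E) (c : ℝ)
    (hF : ∀ e, a e ∈ Submodule.span ℝ (a '' F) → e ∈ F) :
    (∀ γ ∈ Submodule.span ℝ (a '' F),
      ∑ β ∈ Pool.Agent.TH792.Vee.inter (Finset.univ.image a) (Submodule.span ℝ (a '' F)),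
        β (Pool.Agent.TH792.Vee.vee (Finset.univ.image a) γ) •
          Pool.Agent.TH792.Vee.vee (Finset.univ.image a) β =
        c • Pool.Agent.TH792.Vee.vee (Finset.univ.image a) γ) ↔ ∀ e ∈ F, IsNu a F e c := by
  have hFe : {f | a f ∈ Submodule.span ℝ (a '' F)} = F := by
    ext f
    exact ⟨fun h => hF f h, fun h => Submodule.subset_span ⟨f, h, rfl⟩⟩
  have key : ∀ γ, ∑ β ∈ Pool.Agent.TH792.Vee.inter (Finset.univ.image a)
        (Submodule.span ℝ (a '' F)),
        β (Pool.Agent.TH792.Vee.vee (Finset.univ.image a) γ) •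
          Pool.Agent.TH792.Vee.vee (Finset.univ.image a) β =
      ∑ f with f ∈ F, a f (vee a γ) • vee a (a f) := by
    intro γ
    rw [sum_inter_eq ha.injective]
    simp only [hFe]
  constructor
  · intro h e he
    have := h _ (Submodule.subset_span ⟨e, he, rfl⟩)
    rw [key, vee_eq ha.injective] at this
    exact this
  · intro h γ hγ
    rw [key, vee_eq ha.injective]
    obtain ⟨T, hT, -⟩ := exists_vee a ha.span_eq_top
    let R : Dual ℝ V →ₗ[ℝ] V :=
      (∑ f with f ∈ F, ((LinearMap.toSpanSingleton ℝ V (T (a f))).comp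
        (a f)).comp T.toLinearMap) - c • T.toLinearMap
    have hR : ∀ γ, R γ = ∑ f with f ∈ F, a f (vee a γ) • vee a (a f) - c • vee a γ := by
      intro γ
      simp only [R, LinearMap.sub_apply, LinearMap.sum_apply, LinearMap.comp_apply,
        LinearMap.toSpanSingleton_apply, LinearMap.smul_apply, LinearEquiv.coe_coe, hT]
    have hle : Submodule.span ℝ (a '' F) ≤ LinearMap.ker R := by
      rw [Submodule.span_le]
      rintro _ ⟨e, he, rfl⟩
      rw [SetLike.mem_coe, LinearMap.mem_ker, hR, sub_eq_zero]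
      exact h e he
    have := hle hγ
    rw [LinearMap.mem_ker, hR, sub_eq_zero] at this
    exact this

theorem locallyDetermined_of [FiniteDimensional ℝ V] (ha : IsVee a) (hirr : IsIrreducible a)
    (hnc : ∀ e f, e ≠ f → ∀ c : ℝ, a f ≠ c • a e) (hn : 3 ≤ finrank ℝ V) :
    LocallyDetermined a := by
  set A : Finset (Dual ℝ V) := Finset.univ.image a with hA
  have hAv : Pool.Agent.TH792.Vee.IsVeeSystem A := veeSystem_of ha hnc
  have hAi : Pool.Agent.TH792.Vee.IsIrreducible A := irreducible_of hirr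
  obtain ⟨ε, hε, hrig⟩ := Pool.Agent.TH792.VeeLocal.rigidity hn A (finBasis ℝ V) _
    (Pool.Agent.TH792.VeeProj.matching_val A hAv hAi)
  refine ⟨ε, hε, fun b hb hm hnu hclose => ?_⟩
  have hncb := ncol_of_matroid hm hnc ha.ne_zero
  -- labels
  have hmemA : ∀ e, a e ∈ A := fun e => Finset.mem_image_of_mem a (Finset.mem_univ e)
  have hex : ∀ x : A, ∃ e, a e = x := fun x => by
    obtain ⟨e, -, he⟩ := Finset.mem_image.1 x.2
    exact ⟨e, he⟩
  let σ : E ≃ A := Equiv.ofBijective (fun e => (⟨a e, hmemA e⟩ : A))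
    ⟨fun e f h => ha.injective (congrArg Subtype.val h), fun x => by
      obtain ⟨e, he⟩ := hex x
      exact ⟨e, Subtype.ext he⟩⟩
  have hσ : ∀ e, (σ e : Dual ℝ V) = a e := fun e => rfl
  let φ : A → Dual ℝ V := fun x => b (σ.symm x)
  have hφσ : ∀ e, φ (σ e) = b e := fun e => by simp [φ]
  have himg : Pool.Agent.TH792.Vee.img A φ = Finset.univ.image b := by
    ext β
    simp only [Pool.Agent.TH792.Vee.img, Finset.mem_image, Finset.mem_univ, true_and, φ]
    constructor
    · rintro ⟨x, rfl⟩; exact ⟨_, rfl⟩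
    · rintro ⟨e, rfl⟩; exact ⟨σ e, by simp⟩
  have hmatch : Pool.Agent.TH792.Vee.IsMatching A φ := by
    refine ⟨?_, ?_, ?_, ?_, ?_⟩
    · intro x y h
      exact σ.symm.injective (hb.injective h)
    · rw [himg]; exact veeSystem_of hb hncb
    · rw [himg]; exact irreducible_of (irreducible_of_matroid hirr hm)
    · intro s
      have h1 : LinearIndepOn ℝ φ s ↔ LinearIndepOn ℝ b (σ ⁻¹' s) := by
        have := linearIndepOn_equiv (R := ℝ) σ (f := φ) (s := σ ⁻¹' s)
        rw [Equiv.image_preimage] at this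
        rw [← this]
        have e : φ ∘ σ = b := funext hφσ
        rw [e]
      have h2 : LinearIndepOn ℝ (fun a : A => (a : Dual ℝ V)) s ↔
          LinearIndepOn ℝ a (σ ⁻¹' s) := by
        have := linearIndepOn_equiv (R := ℝ) σ (f := fun a : A => (a : Dual ℝ V))
          (s := σ ⁻¹' s)
        rw [Equiv.image_preimage] at this
        rw [← this]
        have e : (fun a : A => (a : Dual ℝ V)) ∘ σ = a := funext hσ
        rw [e]
      rw [h1, h2]
      exact (hm _).symm
    · intro P hP hc
      set F : Set E := {e | a e ∈ P} with hF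
      -- two labels in `F`
      have hcard : 3 ≤ (Finset.univ.filter (fun f => a f ∈ P)).card := by
        rw [inter_eq, Finset.card_image_of_injective _ ha.injective] at hc
        exact hc
      have hFn : 3 ≤ F.ncard := by
        rw [Set.ncard_eq_toFinset_card']
        convert hcard using 2
        ext e
        simp [hF]
      obtain ⟨e, he, f, hf, hef⟩ := Finset.one_lt_card.1
        (by omega : 1 < (Finset.univ.filter (fun f => a f ∈ P)).card)
      have heP : a e ∈ P := (Finset.mem_filter.1 he).2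
      have hfP : a f ∈ P := (Finset.mem_filter.1 hf).2
      have hind := ind_pair ha.ne_zero hnc hef
      have hindb := ind_pair hb.ne_zero hncb hef
      have : FiniteDimensional ℝ P := FiniteDimensional.of_finrank_pos (by omega)
      have hsp : Submodule.span ℝ {a e, a f} = P := by
        apply Submodule.eq_of_le_of_finrank_eq
        · rw [Submodule.span_le]
          intro z hz
          rcases hz with rfl | hz
          · exact heP
          · rw [Set.mem_singleton_iff.1 hz]; exact hfP
        · rw [Pool.Agent.TH792.VeeB.fr2 hind, hP]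
      have hspF : Submodule.span ℝ (a '' F) = P := by
        apply le_antisymm
        · rw [Submodule.span_le]
          rintro _ ⟨k, hk, rfl⟩
          exact hk
        · rw [← hsp, Submodule.span_le]
          intro z hz
          rcases hz with rfl | hz
          · exact Submodule.subset_span ⟨e, heP, rfl⟩
          · rw [Set.mem_singleton_iff.1 hz]
            exact Submodule.subset_span ⟨f, hfP, rfl⟩
      have hline : Pool.Agent.TH792.VeeB.line a e f = Pool.Agent.TH792.VeeB.line b e f :=
        Pool.Agent.TH792.VeeLink.line_eq_of_matroid hm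
          (fun i j hij => ind_pair ha.ne_zero hnc hij)
          (fun i j hij => ind_pair hb.ne_zero hncb hij) hef
      have hFb : ∀ k, k ∈ F ↔ b k ∈ Submodule.span ℝ {b e, b f} := by
        intro k
        rw [← Pool.Agent.TH792.VeeB.mem_line, ← hline, Pool.Agent.TH792.VeeB.mem_line, hsp]
        rfl
      have hspFb : Submodule.span ℝ (b '' F) = Submodule.span ℝ {b e, b f} := by
        apply le_antisymm
        · rw [Submodule.span_le]
          rintro _ ⟨k, hk, rfl⟩
          exact (hFb k).1 hk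
        · rw [Submodule.span_le]
          intro z hz
          rcases hz with rfl | hz
          · exact Submodule.subset_span ⟨e, heP, rfl⟩
          · rw [Set.mem_singleton_iff.1 hz]
            exact Submodule.subset_span ⟨f, hfP, rfl⟩
      have hflat : IsTwoFlat a F := ⟨by rw [hspF]; exact hP, fun k hk => by rwa [hspF] at hk⟩
      have hcl1 : ∀ k, a k ∈ Submodule.span ℝ (a '' F) → k ∈ F := hflat.2
      have hcl2 : ∀ k, b k ∈ Submodule.span ℝ (b '' F) → k ∈ F := fun k hk => by
        rw [hspFb] at hk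
        exact (hFb k).2 hk
      have himgF : φ '' {x : A | (x : Dual ℝ V) ∈ P} = b '' F := by
        ext β
        constructor
        · rintro ⟨x, hx, rfl⟩
          refine ⟨σ.symm x, ?_, rfl⟩
          have : a (σ.symm x) = x := by rw [← hσ, Equiv.apply_symm_apply]
          change a (σ.symm x) ∈ P
          rw [this]; exact hx
        · rintro ⟨k, hk, rfl⟩
          exact ⟨σ k, hk, hφσ k⟩
      rw [himgF, himg]
      conv_rhs => rw [← hspF]
      rw [Pool.Agent.TH792.Vee.nu, Pool.Agent.TH792.Vee.nu]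
      congr 1
      funext c
      apply propext
      rw [nuset_iff hb F c hcl2, hA, nuset_iff ha F c hcl1]
      exact forall_congr' fun k => forall_congr' fun hk => (hnu F hflat hFn k hk c).symm
  obtain ⟨g, hg⟩ := hrig φ hmatch (by
    intro x i
    have := hclose (σ.symm x) i
    have e : a (σ.symm x) = x := by rw [← hσ, Equiv.apply_symm_apply]
    rw [e] at this
    exact this)
  refine ⟨g, fun e => ?_⟩
  have := hg (σ e)
  rw [hφσ] at this
  exact this

end positive

/-! ### The negative part -/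

section negative

variable {a : E → Dual ℝ V}

omit [Fintype E] in
lemma sameMatroid_smul (a : E → Dual ℝ V) {c : E → ℝ} (hc : ∀ e, c e ≠ 0) :
    SameMatroid a (fun e => c e • a e) := by
  intro s
  have := LinearIndependent.units_smul_iff (R := ℝ) (v := fun x : s => a x)
    (w := fun x : s => Units.mk0 (c x) (hc x))
  exact this.symm

omit [Fintype E] in
lemma span_smul (a : E → Dual ℝ V) {c : E → ℝ} (hc : ∀ e, c e ≠ 0) (F : Set E) :
    Submodule.span ℝ ((fun e => c e • a e) '' F) = Submodule.span ℝ (a '' F) := by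
  apply le_antisymm
  · rw [Submodule.span_le]
    rintro _ ⟨e, he, rfl⟩
    exact Submodule.smul_mem _ _ (Submodule.subset_span ⟨e, he, rfl⟩)
  · rw [Submodule.span_le]
    rintro _ ⟨e, he, rfl⟩
    have h1 : a e = (c e)⁻¹ • (c e • a e) := by rw [smul_smul, inv_mul_cancel₀ (hc e), one_smul]
    rw [h1]
    exact Submodule.smul_mem _ _ (Submodule.subset_span ⟨e, he, rfl⟩)

omit [Fintype E] in
lemma smul_mem_iff (a : E → Dual ℝ V) {c : E → ℝ} (hc : ∀ e, c e ≠ 0) (e : E)
    (P : Submodule ℝ (Dual ℝ V)) : c e • a e ∈ P ↔ a e ∈ P :=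
  Submodule.smul_mem_iff P (hc e)

/-- small rescalings -/
lemma eventually_good [FiniteDimensional ℝ V] (hinj : Function.Injective a) {c : ℝ → E → ℝ}
    (hc : ∀ e, Tendsto (fun t => c t e) (𝓝 0) (𝓝 1)) {ε : ℝ} (hε : 0 < ε) :
    ∀ᶠ t in 𝓝 (0 : ℝ), (∀ e, c t e ≠ 0) ∧ (Function.Injective fun e => c t e • a e) ∧
      ∀ e i, |(c t e • a e) (finBasis ℝ V i) - a e (finBasis ℝ V i)| < ε := by
  have hlim : ∀ e i, Tendsto (fun t => (c t e • a e) (finBasis ℝ V i)) (𝓝 0)
      (𝓝 (a e (finBasis ℝ V i))) := by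
    intro e i
    have := (hc e).mul_const (a e (finBasis ℝ V i))
    rw [one_mul] at this
    exact this
  refine Filter.Eventually.and ?_ (Filter.Eventually.and ?_ ?_)
  · rw [eventually_all]
    intro e
    exact (hc e).eventually_ne one_ne_zero
  · have h1 : ∀ p : {p : E × E // p.1 ≠ p.2}, ∀ᶠ t in 𝓝 (0 : ℝ),
        c t p.1.1 • a p.1.1 ≠ c t p.1.2 • a p.1.2 := by
      rintro ⟨⟨e, f⟩, hef⟩
      have hne : a e ≠ a f := fun h => hef (hinj h)
      have : ∃ i, a e (finBasis ℝ V i) ≠ a f (finBasis ℝ V i) := by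
        by_contra hcon
        push Not at hcon
        exact hne ((finBasis ℝ V).ext hcon)
      obtain ⟨i, hi⟩ := this
      have h2 := ((hlim e i).sub (hlim f i)).eventually_ne (sub_ne_zero.2 hi)
      filter_upwards [h2] with t ht hcon
      apply ht
      rw [hcon, sub_self]
    rw [← eventually_all] at h1
    filter_upwards [h1] with t ht e f hef
    by_contra hne
    exact ht ⟨(e, f), hne⟩ hef
  · rw [eventually_all]
    intro e
    rw [eventually_all]
    intro i
    have := (hlim e i).eventually (Metric.ball_mem_nhds _ hε)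
    filter_upwards [this] with t ht
    rw [← Real.dist_eq]
    exact ht

/-- the sum over the whole system -/
lemma sum_all [FiniteDimensional ℝ V] (hs : Submodule.span ℝ (Set.range a) = ⊤)
    (γ : Dual ℝ V) : ∑ f, a f (vee a γ) • vee a (a f) = vee a γ := by
  obtain ⟨T, hT, hform⟩ := exists_vee a hs
  simp only [hT]
  apply T.symm.injective
  rw [map_sum]
  ext w
  simp only [map_smul, LinearEquiv.symm_apply_apply, LinearMap.sum_apply, LinearMap.smul_apply,
    smul_eq_mul]
  exact hform γ w

lemma isNu_univ [FiniteDimensional ℝ V] (hs : Submodule.span ℝ (Set.range a) = ⊤) {e : E}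
    (h0 : a e ≠ 0) (l : ℝ) : IsNu a Set.univ e l ↔ l = 1 := by
  obtain ⟨T, hT, hform⟩ := exists_vee a hs
  have key : ∀ s : Finset E, s = Finset.univ →
      ∑ f ∈ s, a f (vee a (a e)) • vee a (a f) = vee a (a e) := by
    rintro _ rfl
    exact sum_all hs _
  rw [IsNu, key _ (by ext; simp)]
  have h2 : vee a (a e) ≠ 0 := by
    rw [hT]
    exact fun h => h0 (T.map_eq_zero_iff.1 h)
  constructor
  · intro h
    by_contra hne
    have : (l - 1) • vee a (a e) = 0 := by rw [sub_smul, one_smul, ← h, sub_self]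
    rcases smul_eq_zero.1 this with h3 | h3
    · exact hne (by linarith)
    · exact h2 h3
  · rintro rfl
    rw [one_smul]

lemma isVee_two [FiniteDimensional ℝ V] (h2 : finrank ℝ V = 2) (hinj : Function.Injective a)
    (h0 : ∀ e, a e ≠ 0) (hs : Submodule.span ℝ (Set.range a) = ⊤) : IsVee a where
  injective := hinj
  ne_zero := h0
  span_eq_top := hs
  vee_cond := by
    intro P hP e he
    have hPt : P = ⊤ := by
      apply Submodule.eq_top_of_finrank_eq
      rw [hP, Subspace.dual_finrank_eq, h2]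
    subst hPt
    refine ⟨1, ?_⟩
    have : {f | a f ∈ (⊤ : Submodule ℝ (Dual ℝ V))} = Set.univ := by
      ext; simp
    rw [this, isNu_univ hs (h0 e)]

omit [Fintype E] in
lemma flat_two [FiniteDimensional ℝ V] (h2 : finrank ℝ V = 2) {F : Set E}
    (hF : IsTwoFlat a F) : F = Set.univ := by
  have h1 : Submodule.span ℝ (a '' F) = ⊤ := by
    apply Submodule.eq_top_of_finrank_eq
    rw [hF.1, Subspace.dual_finrank_eq, h2]
  ext e
  constructor
  · intro _; trivial
  · intro _
    apply hF.2
    rw [h1]; trivial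

theorem not_ld_two [FiniteDimensional ℝ V] (ha : IsVee a) (hirr : IsIrreducible a)
    (h2 : finrank ℝ V = 2) : ¬ LocallyDetermined a := by
  rintro ⟨ε, hε, H⟩
  have h2' : finrank ℝ (Dual ℝ V) = 2 := by rw [Subspace.dual_finrank_eq, h2]
  have hne : Nonempty E := by
    by_contra hemp
    rw [not_nonempty_iff] at hemp
    have h1 := ha.span_eq_top
    rw [Set.range_eq_empty, Submodule.span_empty] at h1
    have h3 : finrank ℝ (⊥ : Submodule ℝ (Dual ℝ V)) = finrank ℝ (⊤ : Submodule ℝ (Dual ℝ V)) := by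
      rw [h1]
    rw [finrank_bot, finrank_top, h2'] at h3
    omega
  obtain ⟨e0⟩ := hne
  -- the other elements span
  have hcn : (({e0} : Set E)ᶜ).Nonempty := by
    by_contra hcon
    rw [Set.not_nonempty_iff_eq_empty, Set.compl_empty_iff] at hcon
    have h1 := ha.span_eq_top
    rw [← Set.image_univ, ← hcon, Set.image_singleton] at h1
    have h3 : finrank ℝ (Submodule.span ℝ {a e0}) = finrank ℝ (⊤ : Submodule ℝ (Dual ℝ V)) := by
      rw [h1]
    rw [finrank_top, h2', finrank_span_singleton (ha.ne_zero e0)] at h3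
    omega
  have hmem : a e0 ∈ Submodule.span ℝ (a '' {e0}ᶜ) := by
    by_contra hcon
    refine hirr {e0} (Set.singleton_nonempty _) hcn ?_
    rw [Set.image_singleton]
    exact ((Submodule.disjoint_span_singleton' (ha.ne_zero e0)).2 hcon).symm
  have hspan : Submodule.span ℝ (a '' {e0}ᶜ) = ⊤ := by
    rw [eq_top_iff, ← ha.span_eq_top, Submodule.span_le]
    rintro _ ⟨e, rfl⟩
    by_cases he : e = e0
    · rw [he]; exact hmem
    · exact Submodule.subset_span ⟨e, he, rfl⟩
  let c : ℝ → E → ℝ := fun t e => if e = e0 then 1 + t else 1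
  have hc : ∀ e, Tendsto (fun t => c t e) (𝓝 0) (𝓝 1) := by
    intro e
    by_cases he : e = e0
    · simp only [c, if_pos he]
      have : Tendsto (fun t : ℝ => 1 + t) (𝓝 0) (𝓝 (1 + 0)) := tendsto_id.const_add 1
      rwa [add_zero] at this
    · simp only [c, if_neg he]
      exact tendsto_const_nhds
  have hev := (eventually_good ha.injective hc hε).filter_mono
    (nhdsWithin_le_nhds (s := {(0 : ℝ)}ᶜ))
  obtain ⟨t, ⟨h1, h3, h4⟩, ht⟩ := (hev.and self_mem_nhdsWithin).exists
  have ht0 : t ≠ 0 := ht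
  set b : E → Dual ℝ V := fun e => c t e • a e with hb
  have hbs : Submodule.span ℝ (Set.range b) = ⊤ := by
    rw [← Set.image_univ, hb, span_smul a h1, Set.image_univ, ha.span_eq_top]
  have hb0 : ∀ e, b e ≠ 0 := fun e => smul_ne_zero (h1 e) (ha.ne_zero e)
  obtain ⟨g, hg⟩ := H b (isVee_two h2 h3 hb0 hbs) (sameMatroid_smul a h1) (by
    intro F hF _ e _ l
    rw [flat_two h2 hF, isNu_univ ha.span_eq_top (ha.ne_zero e), isNu_univ hbs (hb0 e)]) h4
  have hgid : ∀ γ : Dual ℝ V, g γ = γ := by
    intro γ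
    have hγ : γ ∈ Submodule.span ℝ (a '' {e0}ᶜ) := by rw [hspan]; trivial
    have hle : Submodule.span ℝ (a '' {e0}ᶜ) ≤
        LinearMap.ker (g.toLinearMap - LinearMap.id) := by
      rw [Submodule.span_le]
      rintro _ ⟨e, he, rfl⟩
      have he' : e ≠ e0 := he
      rw [SetLike.mem_coe, LinearMap.mem_ker, LinearMap.sub_apply, LinearEquiv.coe_coe, ← hg,
        LinearMap.id_apply]
      simp [hb, c, he']
    have := hle hγ
    rw [LinearMap.mem_ker, LinearMap.sub_apply, LinearEquiv.coe_coe, LinearMap.id_apply,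
      sub_eq_zero] at this
    exact this
  have h5 := hg e0
  rw [hgid] at h5
  have h6 : t • a e0 = 0 := by
    have : (1 + t) • a e0 = a e0 := by simpa [hb, c] using h5
    rw [add_smul, one_smul] at this
    simpa using this
  rcases smul_eq_zero.1 h6 with h | h
  · exact ht0 h
  · exact ha.ne_zero e0 h

omit [Fintype E] in
/-- rescaling of two proportional elements -/
lemma sum_two {W : Type*} [AddCommGroup W] [Module ℝ W] {e f : E} (hef : e ≠ f) {c0 : ℝ}
    {c : E → ℝ} (hc1 : ∀ g, g ≠ e → g ≠ f → c g = 1) (hc2 : c e ^ 2 + c0 ^ 2 * c f ^ 2 =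
      1 + c0 ^ 2) (Φ : E → W) (hΦ : Φ f = c0 ^ 2 • Φ e) (s : Finset E) (hs : e ∈ s ↔ f ∈ s) :
    ∑ g ∈ s, c g ^ 2 • Φ g = ∑ g ∈ s, Φ g := by
  rw [← sub_eq_zero, ← Finset.sum_sub_distrib]
  have h0 : ∀ g, g ≠ e → g ≠ f → c g ^ 2 • Φ g - Φ g = 0 := by
    intro g h1 h2
    rw [hc1 g h1 h2]; simp
  by_cases he : e ∈ s
  · rw [Finset.sum_eq_add_of_mem e f he (hs.1 he) hef (fun g _ hg => h0 g hg.1 hg.2), hΦ]
    have : c e ^ 2 • Φ e - Φ e + (c f ^ 2 • c0 ^ 2 • Φ e - c0 ^ 2 • Φ e) =
        ((c e ^ 2 + c0 ^ 2 * c f ^ 2) - (1 + c0 ^ 2)) • Φ e := by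
      module
    rw [this, hc2, sub_self, zero_smul]
  · refine Finset.sum_eq_zero fun g hg => h0 g ?_ ?_
    · rintro rfl; exact he hg
    · rintro rfl; exact he (hs.2 hg)

theorem not_ld_collinear [FiniteDimensional ℝ V] (ha : IsVee a) {e f : E} (hef : e ≠ f)
    {c0 : ℝ} (hc0 : a f = c0 • a e) : ¬ LocallyDetermined a := by
  rintro ⟨ε, hε, H⟩
  have hc0' : c0 ≠ 0 := by
    rintro rfl
    rw [zero_smul] at hc0
    exact ha.ne_zero f hc0
  let C : ℝ → ℝ := fun t => (1 - t ^ 2) / (1 + t ^ 2)
  let S : ℝ → ℝ := fun t => 2 * t / (1 + t ^ 2)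
  have hCS : ∀ t, C t ^ 2 + S t ^ 2 = 1 := by
    intro t
    have : (1 + t ^ 2) ≠ 0 := by positivity
    simp only [C, S]
    field_simp
    ring
  have hC : Tendsto C (𝓝 0) (𝓝 1) := by
    have h1 : Continuous C := by
      apply Continuous.div (by fun_prop) (by fun_prop)
      intro t; positivity
    have := h1.tendsto 0
    simpa [C] using this
  have hS : Tendsto S (𝓝 0) (𝓝 0) := by
    have h1 : Continuous S := by
      apply Continuous.div (by fun_prop) (by fun_prop)
      intro t; positivity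
    have := h1.tendsto 0
    simpa [S] using this
  let c : ℝ → E → ℝ := fun t g =>
    if g = e then C t - c0 * S t else if g = f then C t + S t / c0 else 1
  have hc : ∀ g, Tendsto (fun t => c t g) (𝓝 0) (𝓝 1) := by
    intro g
    by_cases hge : g = e
    · simp only [c, if_pos hge]
      have := hC.sub (hS.const_mul c0)
      simpa using this
    · by_cases hgf : g = f
      · simp only [c, if_neg hge, if_pos hgf]
        have := hC.add (hS.div_const c0)
        simpa using this
      · simp only [c, if_neg hge, if_neg hgf]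
        exact tendsto_const_nhds
  have hev := (eventually_good ha.injective hc hε).filter_mono
    (nhdsWithin_le_nhds (s := {(0 : ℝ)}ᶜ))
  obtain ⟨t, ⟨h1, h3, h4⟩, ht⟩ := (hev.and self_mem_nhdsWithin).exists
  have ht0 : t ≠ 0 := ht
  have hce : c t e = C t - c0 * S t := by simp [c]
  have hcf : c t f = C t + S t / c0 := by simp [c, hef.symm]
  have hc1 : ∀ g, g ≠ e → g ≠ f → c t g = 1 := by
    intro g hge hgf
    simp [c, hge, hgf]
  have hc2 : c t e ^ 2 + c0 ^ 2 * c t f ^ 2 = 1 + c0 ^ 2 := by
    rw [hce, hcf]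
    have h := hCS t
    have e1 : c0 ^ 2 * (C t + S t / c0) ^ 2 = (c0 * C t + S t) ^ 2 := by
      rw [← mul_pow, mul_add, mul_div_cancel₀ _ hc0']
    rw [e1]
    linear_combination (1 + c0 ^ 2) * h
  set b : E → Dual ℝ V := fun g => c t g • a g with hb
  obtain ⟨T, hT, hform⟩ := exists_vee a ha.span_eq_top
  -- the canonical form does not change
  have hfm : ∀ u v, form b u v = form a u v := by
    intro u v
    have := sum_two hef hc1 hc2 (fun g => a g u * a g v) (by
      simp only [hc0, LinearMap.smul_apply, smul_eq_mul]; ring) Finset.univ (by simp)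
    rw [form, form, ← this]
    refine Finset.sum_congr rfl fun g _ => ?_
    simp only [hb, LinearMap.smul_apply, smul_eq_mul]
    ring
  have hvee : ∀ γ, vee b γ = T γ := by
    intro γ
    rw [← hT, vee, vee]
    simp only [hfm]
  have hnu : ∀ F : Set E, (e ∈ F ↔ f ∈ F) → ∀ g l, IsNu b F g l ↔ IsNu a F g l := by
    intro F hF g l
    rw [IsNu, IsNu]
    simp only [hvee, hT]
    have h5 := sum_two hef hc1 hc2 (fun h => a h (T (a g)) • T (a h)) (by
      simp only [hc0, LinearMap.smul_apply, smul_eq_mul, map_smul, smul_smul]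
      congr 1; ring) (Finset.univ.filter (fun h => h ∈ F)) (by simpa using hF)
    have h6 : ∑ h with h ∈ F, b h (T (b g)) • T (b h) =
        c t g • ∑ h with h ∈ F, a h (T (a g)) • T (a h) := by
      rw [← h5, Finset.smul_sum]
      refine Finset.sum_congr rfl fun h _ => ?_
      simp only [hb, LinearMap.smul_apply, smul_eq_mul, map_smul, smul_smul]
      congr 1; ring
    have h7 : l • T (b g) = c t g • (l • T (a g)) := by
      simp only [hb, map_smul, smul_smul]
      congr 1; ring
    rw [h6, h7]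
    exact smul_right_inj (h1 g)
  have hiff : ∀ P : Submodule ℝ (Dual ℝ V), a e ∈ P ↔ a f ∈ P := by
    intro P
    rw [hc0]
    exact (Submodule.smul_mem_iff P hc0').symm
  have hset : ∀ P : Submodule ℝ (Dual ℝ V), {g | b g ∈ P} = {g | a g ∈ P} := by
    intro P
    ext g
    exact smul_mem_iff a h1 g P
  obtain ⟨g, hg⟩ := H b ⟨h3, fun g => smul_ne_zero (h1 g) (ha.ne_zero g), by
      rw [← Set.image_univ, hb, span_smul a h1, Set.image_univ, ha.span_eq_top], by
      intro P hP g hgP
      obtain ⟨l, hl⟩ := ha.vee_cond P hP g ((smul_mem_iff a h1 g P).1 hgP)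
      refine ⟨l, ?_⟩
      rw [hset P, hnu _ (hiff P)]
      exact hl⟩ (sameMatroid_smul a h1) (by
      intro F hF _ g _ l
      rw [hnu F]
      constructor
      · intro h
        exact hF.2 f ((hiff _).1 (Submodule.subset_span ⟨e, h, rfl⟩))
      · intro h
        exact hF.2 e ((hiff _).2 (Submodule.subset_span ⟨f, h, rfl⟩))) h4
  have h5 : c t f • (c0 • a e) = c0 • (c t e • a e) := by
    have e1 := hg e
    have e2 := hg f
    simp only [hb] at e1 e2
    rw [hc0, map_smul, ← e1] at e2
    exact e2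
  rw [smul_smul, smul_smul, ← sub_eq_zero, ← sub_smul] at h5
  rcases smul_eq_zero.1 h5 with h | h
  · have h6 : c t f = c t e := by
      have : c0 * (c t f - c t e) = 0 := by linarith
      rcases mul_eq_zero.1 this with h | h
      · exact absurd h hc0'
      · linarith
    rw [hce, hcf] at h6
    have h7 : S t * (1 + c0 ^ 2) = 0 := by
      have : S t / c0 + c0 * S t = 0 := by linarith
      field_simp at this
      linarith
    rcases mul_eq_zero.1 h7 with h | h
    · simp only [S] at h
      rcases div_eq_zero_iff.1 h with h | h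
      · exact ht0 (by linarith)
      · have : (0 : ℝ) < 1 + t ^ 2 := by positivity
        linarith
    · have : (0 : ℝ) < 1 + c0 ^ 2 := by positivity
      linarith
  · exact ha.ne_zero e h

end negative

theorem ld_one [FiniteDimensional ℝ V] {a : E → Dual ℝ V} (ha : IsVee a)
    (hnc : ∀ e f, e ≠ f → ∀ c : ℝ, a f ≠ c • a e) (hn : finrank ℝ V ≤ 1) :
    LocallyDetermined a := by
  refine ⟨1, one_pos, fun b hb _ _ _ => ?_⟩
  have hn' : finrank ℝ (Dual ℝ V) ≤ 1 := by rwa [Subspace.dual_finrank_eq]
  rcases isEmpty_or_nonempty E with hE | ⟨⟨e0⟩⟩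
  · exact ⟨LinearEquiv.refl ℝ _, fun e => (hE.false e).elim⟩
  · have hsp : ∀ γ : Dual ℝ V, ∃ c : ℝ, c • a e0 = γ := by
      have h1 : 0 < finrank ℝ (Dual ℝ V) := by
        rw [Module.finrank_pos_iff]
        exact ⟨a e0, 0, ha.ne_zero e0⟩
      have h2 : finrank ℝ (Dual ℝ V) = 1 := by omega
      exact (finrank_eq_one_iff_of_nonzero' (a e0) (ha.ne_zero e0)).1 h2
    have huniq : ∀ e, e = e0 := by
      intro e
      by_contra hne
      obtain ⟨c, hc⟩ := hsp (a e)
      exact hnc e0 e (Ne.symm hne) c hc.symm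
    obtain ⟨c, hc⟩ := hsp (b e0)
    have hc0 : c ≠ 0 := by
      rintro rfl
      rw [zero_smul] at hc
      exact hb.ne_zero e0 hc.symm
    refine ⟨LinearEquiv.smulOfNeZero ℝ _ c hc0, fun e => ?_⟩
    rw [huniq e, LinearEquiv.smulOfNeZero_apply, hc]

/-- An irreducible labelled ∨-system is locally determined by its matroid and its `ν`-function
if and only if the dimension is not two and its elements are pairwise non-proportional. -/
theorem result [FiniteDimensional ℝ V] (a : E → Dual ℝ V) (ha : IsVee a)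
    (hirr : IsIrreducible a) :
    LocallyDetermined a ↔
      finrank ℝ V ≠ 2 ∧ ∀ e f, e ≠ f → ∀ c : ℝ, a f ≠ c • a e := by
  constructor
  · intro h
    exact ⟨fun h2 => not_ld_two ha hirr h2 h, fun e f hef c hc => not_ld_collinear ha hef hc h⟩
  · rintro ⟨h2, hnc⟩
    by_cases h3 : 3 ≤ finrank ℝ V
    · exact locallyDetermined_of ha hirr hnc h3
    · exact ld_one ha hnc (by omega)

end

end Pool.Agent.Results.MP_44d68a_mp.LocalDetermination
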